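import Pool.Agent.R794.PP.Words

namespace Pool.Agent.R794.PP

open FreeGroup List

variable {X : Type*} [DecidableEq X]

/-- the core of a reduced word whose inverse is conjugate to a positive word is negative -/
lemma allNeg_core {R : List (X × Bool)} (hR : FreeGroup.IsReduced R)
    (h : PC (mk (invRev R) : FreeGroup X)) : AllNeg (reduceCyclically R) := by
  set C := reduceCyclically R with hC
  have hcyc : IsCyclicallyReduced C := reduceCyclically.isCyclicallyReduced hR
  have hcyc' : IsCyclicallyReduced (invRev C) := by
    refine ⟨isReduced_invRev hcyc.isReduced, ?_⟩
    intro x hx y hy hxy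
    rw [getLast?_invRev, Option.mem_def, Option.map_eq_some_iff] at hx
    rw [head?_invRev, Option.mem_def, Option.map_eq_some_iff] at hy
    obtain ⟨x', hx', rfl⟩ := hx
    obtain ⟨y', hy', rfl⟩ := hy
    have := hcyc.2 y' hy' x' hx' hxy.symm
    simp [linv, this]
  rw [← allPos_invRev]
  apply allPos_of_cyc hcyc'
  have h1 := reduceCyclically.conj_conjugator_reduceCyclically R
  have h2 : (mk R : FreeGroup X) = mk (reduceCyclically.conjugator R) * mk C *
      (mk (reduceCyclically.conjugator R))⁻¹ := by
    rw [inv_mk, mul_mk, mul_mk, hC, h1]
  have h3 := h.conj ((mk (reduceCyclically.conjugator R))⁻¹)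
  rw [← inv_mk, h2] at h3
  rw [← inv_mk]
  convert h3 using 1
  group

omit [DecidableEq X] in
lemma mk_flatten_replicate (L : List (X × Bool)) (n : ℕ) :
    (mk (List.replicate n L).flatten : FreeGroup X) = (mk L) ^ n := by
  induction n with
  | zero => simp; rfl
  | succ n ih => rw [List.replicate_succ, List.flatten_cons, ← mul_mk, ih, pow_succ']

omit [DecidableEq X] in
lemma getLast?_flat {L : List (X × Bool)} {n : ℕ} (hn : n ≠ 0) :
    ((List.replicate n L).flatten).getLast? = L.getLast? := by
  exact List.getLast?_flatten_replicate hn L

omit [DecidableEq X] in
lemma drop_getLast? {L : List (X × Bool)} {D : ℕ} (h : D < L.length) :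
    (L.drop D).getLast? = L.getLast? := by
  rw [List.getLast?_drop, if_neg (by omega)]

omit [DecidableEq X] in
/-- factor property of a dropped power -/
lemma drop_per (U : List (X × Bool)) (n m : ℕ) :
    ∀ i < ((List.replicate n U).flatten.drop m).length,
      ((List.replicate n U).flatten.drop m)[i]? = per U (m + i) := by
  intro i hi
  rw [List.getElem?_drop]
  apply getElem?_flatten_replicate
  rw [List.length_drop, length_flatten_replicate'] at hi
  omega

/-- If a suffix of length at least two periods of a power of `U` has a long conjugator, then `U`
is the inverse of a rotation. -/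
lemma conjugator_short {U : List (X × Bool)} (hU : IsReduced U) (hne : U ≠ []) {n m : ℕ}
    (hm : m + 2 * U.length ≤ n * U.length) :
    (reduceCyclically.conjugator ((List.replicate n U).flatten.drop m)).length < U.length := by
  by_contra hcon
  push Not at hcon
  set A' := (List.replicate n U).flatten.drop m with hA'
  set z := reduceCyclically.conjugator A' with hz
  have hdec := reduceCyclically.conj_conjugator_reduceCyclically A'
  rw [← hz] at hdec
  have hlenA : A'.length = n * U.length - m := by simp [hA']
  have hlen : 2 * z.length + (reduceCyclically A').length = A'.length := by
    have := congrArg List.length hdec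
    simp only [List.length_append, invRev_length] at this
    omega
  apply not_invRev_rotate hU hne m
  apply List.ext_getElem?
  intro i
  by_cases hi : i < U.length
  · -- the letter at position `i` of the last period of `A'`
    have h1 : A'[A'.length - U.length + i]? = U[i]? := by
      rw [hA', drop_per U n m _ (by rw [← hA']; omega), per]
      congr 1
      rw [← hA', hlenA]
      have : m + (n * U.length - m - U.length + i) = i + U.length * (n - 1) := by
        have h2 : 1 ≤ n := by
          by_contra hn
          have : n = 0 := by omega
          subst this
          have := List.length_pos_iff.2 hne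
          omega
        obtain ⟨n', rfl⟩ : ∃ n', n = n' + 1 := ⟨n - 1, by omega⟩
        simp only [Nat.add_sub_cancel]
        have h3 : (n' + 1) * U.length = U.length * n' + U.length := by ring
        rw [h3] at hm ⊢
        omega
      rw [this, Nat.add_mul_mod_self_left, Nat.mod_eq_of_lt hi]
    have h2 : A'[A'.length - U.length + i]? = (invRev z)[z.length - U.length + i]? := by
      conv_lhs => rw [← hdec]
      rw [List.getElem?_append_right (by simp; omega)]
      congr 1
      simp
      omega
    have h3 : ∀ k < U.length, (invRev z)[z.length - U.length + k]?
        = (z[U.length - 1 - k]?).map linv := by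
      intro k hk
      unfold invRev
      rw [List.getElem?_reverse (by simp; omega)]
      simp only [List.length_map, List.getElem?_map]
      have : z.length - 1 - (z.length - U.length + k) = U.length - 1 - k := by omega
      rw [this]; rfl
    have h4 : ∀ k < U.length, z[k]? = (U.rotate m)[k]? := by
      intro k hk
      have h5 : z[k]? = A'[k]? := by
        conv_rhs => rw [← hdec]
        rw [List.append_assoc, List.getElem?_append_left (by omega)]
      rw [h5, hA', drop_per U n m _ (by rw [← hA']; omega), per, List.getElem?_rotate hk, add_comm]
    have h6 : (invRev (U.rotate m))[i]? = ((U.rotate m)[U.length - 1 - i]?).map linv := by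
      unfold invRev
      rw [List.getElem?_reverse (by simpa using hi)]
      simp only [List.length_map, List.getElem?_map, List.length_rotate]
      rfl
    rw [h6, ← h4 _ (by omega), ← h3 i hi, ← h2, h1]
  · push Not at hi
    rw [List.getElem?_eq_none hi, List.getElem?_eq_none (by simpa using hi)]

lemma core_length (R : List (X × Bool)) :
    2 * (reduceCyclically.conjugator R).length + (reduceCyclically R).length = R.length := by
  have := congrArg List.length (reduceCyclically.conj_conjugator_reduceCyclically R)
  simp only [List.length_append, invRev_length] at this
  omega

lemma core_factor (R : List (X × Bool)) : ∀ i < (reduceCyclically R).length,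
    (reduceCyclically R)[i]? = R[(reduceCyclically.conjugator R).length + i]? := by
  intro i hi
  have h := reduceCyclically.conj_conjugator_reduceCyclically R
  generalize reduceCyclically.conjugator R = c at h ⊢
  generalize reduceCyclically R = r at h hi ⊢
  subst h
  rw [List.append_assoc, List.getElem?_append_right (by omega), List.getElem?_append_left (by omega)]
  congr 1
  omega

/-- The main case: both words are cyclically reduced and their last letters are different. -/
lemma main_case {U V : List (X × Bool)} (hU : IsCyclicallyReduced U) (hV : IsCyclicallyReduced V)
    (hU0 : U ≠ []) (hV0 : V ≠ []) (hlast : U.getLast? ≠ V.getLast?)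
    (hcomm : U ++ V ≠ V ++ U) (hs : esum V = 0) {n k : ℕ} (hn : 5 ≤ n) (hk : 5 ≤ k)
    (hPC : PC (((mk U) ^ n)⁻¹ * (mk V) ^ k : FreeGroup X)) : False := by
  have hUpos : 0 < U.length := List.length_pos_iff.2 hU0
  have hVpos : 0 < V.length := List.length_pos_iff.2 hV0
  have hVnotpos : ¬ AllPos V := by
    intro h
    rw [esum_allPos h] at hs
    omega
  have hVnotneg : ¬ AllNeg V := by
    intro h
    rw [esum_allNeg h] at hs
    omega
  -- the first difference
  have hex : ∃ i, per U i ≠ per V i := by
    by_contra hcon
    push Not at hcon
    exact hcomm (fineWilf fun i _ => hcon i)
  classical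
  set D := Nat.find hex with hD
  have hDne : per U D ≠ per V D := Nat.find_spec hex
  have hDmin : ∀ i < D, per U i = per V i := fun i hi => not_not.1 (Nat.find_min hex hi)
  have hDlt : D < U.length + V.length := by
    by_contra hcon
    push Not at hcon
    exact hcomm (fineWilf fun i hi => hDmin i (by omega))
  set a := U.length with ha
  set b := V.length with hb
  set A := (List.replicate n U).flatten with hA
  set B := (List.replicate k V).flatten with hB
  have hlA : A.length = n * a := by simp [hA, ha]
  have hlB : B.length = k * b := by simp [hB, hb]
  have hAred : FreeGroup.IsReduced A := (hU.flatten_replicate n).isReduced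
  have hBred : FreeGroup.IsReduced B := (hV.flatten_replicate k).isReduced
  have hmkA : (mk A : FreeGroup X) = (mk U) ^ n := mk_flatten_replicate U n
  have hmkB : (mk B : FreeGroup X) = (mk V) ^ k := mk_flatten_replicate V k
  -- common initial segments
  have hpre : ∀ m, m ≤ D → m ≤ n * a → m ≤ k * b → A.take m = B.take m := by
    intro m hm hm1 hm2
    apply List.ext_getElem?
    intro i
    by_cases hi : i < m
    · rw [List.getElem?_take_of_lt hi, List.getElem?_take_of_lt hi,
        getElem?_flatten_replicate U n i (by rw [← ha]; omega),
        getElem?_flatten_replicate V k i (by rw [← hb]; omega), hDmin i (by omega)]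
    · push Not at hi
      rw [List.getElem?_eq_none (by simp; omega), List.getElem?_eq_none (by simp; omega)]
  have hn5 : 5 * a ≤ n * a := Nat.mul_le_mul_right _ hn
  have hk5 : 5 * b ≤ k * b := Nat.mul_le_mul_right _ hk
  -- if `U` is negative and the overlap is at least `b`, then `V` is negative
  have hneg : AllNeg U → b ≤ D → False := by
    intro hU' hbD
    apply hVnotneg
    intro l hl
    obtain ⟨j, hj, rfl⟩ := List.getElem_of_mem hl
    have h1 := hDmin j (by omega)
    have h2 : per V j = some V[j] := by
      rw [per, Nat.mod_eq_of_lt hj, List.getElem?_eq_getElem hj]
    rw [h2, per] at h1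
    exact hU' _ (List.mem_of_getElem? h1)
  rcases lt_or_ge D (n * a) with hDa | hDa
  · rcases lt_or_ge D (k * b) with hDb | hDb
    · -- main case
      set W := invRev (A.drop D) ++ B.drop D with hW
      have hA1 : (A.drop D).head? = per U D := by
        rw [List.head?_drop, getElem?_flatten_replicate U n D (by omega)]
      have hB1 : (B.drop D).head? = per V D := by
        rw [List.head?_drop, getElem?_flatten_replicate V k D (by omega)]
      have hA2 : (A.drop D).getLast? = U.getLast? := by
        rw [drop_getLast? (by omega), hA, getLast?_flat (by omega)]
      have hB2 : (B.drop D).getLast? = V.getLast? := by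
        rw [drop_getLast? (by omega), hB, getLast?_flat (by omega)]
      have hWred : IsReduced W := by
        rw [FreeGroup.IsReduced, hW, List.isChain_append]
        refine ⟨isReduced_invRev (red_drop hAred _),
          red_drop hBred _, ?_⟩
        intro x hx y hy hxy
        rw [getLast?_invRev, hA1] at hx
        rw [hB1] at hy
        rw [Option.mem_def, Option.map_eq_some_iff] at hx
        obtain ⟨x', hx', rfl⟩ := hx
        rw [Option.mem_def] at hy
        by_contra hne
        apply hDne
        rw [hx', hy]
        congr 1
        apply Prod.ext
        · exact hxy
        · simp only [linv] at hne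
          cases h1 : x'.2 <;> cases h2 : y.2 <;> simp_all
      have hWne1 : (A.drop D) ≠ [] := by
        intro h
        have := congrArg List.length h
        simp at this
        omega
      have hWne2 : (B.drop D) ≠ [] := by
        intro h
        have := congrArg List.length h
        simp at this
        omega
      have hWcyc : IsCyclicallyReduced W := by
        refine ⟨hWred, ?_⟩
        intro x hx y hy hxy
        have h1 : W.getLast? = V.getLast? := by
          rw [hW, List.getLast?_append_of_ne_nil _ hWne2, hB2]
        have h2 : W.head? = U.getLast?.map linv := by
          rw [hW, List.head?_append_of_ne_nil _ (by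
            intro h
            apply hWne1
            have := congrArg List.length h
            rw [invRev_length] at this
            exact List.length_eq_zero_iff.1 (by simpa using this)), head?_invRev, hA2]
        rw [h1] at hx
        rw [h2, Option.mem_def, Option.map_eq_some_iff] at hy
        obtain ⟨y', hy', rfl⟩ := hy
        rw [Option.mem_def] at hx
        by_contra hne
        apply hlast
        rw [hx, hy']
        congr 1
        apply Prod.ext
        · exact hxy.symm
        · simp only [linv] at hne
          cases h1 : x.2 <;> cases h2 : y'.2 <;> simp_all
      have hmk : (mk W : FreeGroup X) = ((mk U) ^ n)⁻¹ * (mk V) ^ k := by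
        rw [← hmkA, ← hmkB]
        have h1 : (mk A : FreeGroup X) = mk (A.take D) * mk (A.drop D) := by
          rw [mul_mk, List.take_append_drop]
        have h2 : (mk B : FreeGroup X) = mk (A.take D) * mk (B.drop D) := by
          rw [mul_mk, hpre D le_rfl (by omega) (by omega), List.take_append_drop]
        rw [h1, h2, hW, ← mul_mk, ← inv_mk]
        group
      have hpos := allPos_of_cyc hWcyc (by rw [hmk]; exact hPC)
      have hposB : AllPos (B.drop D) := fun l hl => hpos l (by rw [hW]; simp [hl])
      have hnegA : AllNeg (A.drop D) := by
        rw [← allPos_invRev]
        exact fun l hl => hpos l (by rw [hW]; exact List.mem_append_left _ hl)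
      have h1 : (B.drop D).length < b := by
        by_contra hcon
        push Not at hcon
        exact hVnotpos (all_of_factor hV0 (drop_per V k D) hcon hposB)
      rw [List.length_drop, hlB] at h1
      have h2 : AllNeg U := by
        apply all_of_factor hU0 (drop_per U n D) _ hnegA
        rw [← hA, List.length_drop, hlA]
        omega
      exact hneg h2 (by omega)
    · -- `V^k` is an initial segment of `U^n`
      set A' := A.drop (k * b) with hA'
      have hred' : FreeGroup.IsReduced A' := red_drop hAred _
      have hmk : ((mk U) ^ n)⁻¹ * (mk V) ^ k = (mk (invRev A') : FreeGroup X) := by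
        rw [← hmkA, ← hmkB]
        have h1 : A = B ++ A' := by
          rw [hA']
          nth_rewrite 1 [← List.take_append_drop (k * b) A]
          rw [hpre (k * b) hDb (by omega) le_rfl, List.take_of_length_le (by omega)]
        nth_rewrite 1 [h1]
        rw [← mul_mk, ← inv_mk]
        group
      have hcore := allNeg_core hred' (by rw [← hmk]; exact hPC)
      have hz : (reduceCyclically.conjugator A').length < a :=
        conjugator_short hU.isReduced hU0 (m := k * b) (by rw [← ha]; omega)
      have hfac := core_factor A'
      have hlA' : A'.length = n * a - k * b := by rw [hA', List.length_drop, hlA]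
      have hlen : 2 * (reduceCyclically.conjugator A').length + (reduceCyclically A').length
          = n * a - k * b := by
        rw [core_length, hlA']
      have h2 : AllNeg U := by
        apply all_of_factor (s := k * b + (reduceCyclically.conjugator A').length) hU0 _ _ hcore
        · intro i hi
          refine (hfac i hi).trans ((drop_per U n (k * b) _ ?_).trans (by rw [Nat.add_assoc]))
          change _ < A'.length
          omega
        · rw [← ha]; omega
      exact hneg h2 (by omega)
  · -- `U^n` is an initial segment of `V^k`
    set B' := B.drop (n * a) with hB'
    have hred' : FreeGroup.IsReduced B' := red_drop hBred _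
    have hmk : ((mk U) ^ n)⁻¹ * (mk V) ^ k = (mk B' : FreeGroup X) := by
      rw [← hmkA, ← hmkB]
      have h1 : B = A ++ B' := by
        rw [hB']
        nth_rewrite 1 [← List.take_append_drop (n * a) B]
        rw [← hpre (n * a) hDa le_rfl (by omega), List.take_of_length_le (by omega)]
      nth_rewrite 1 [h1]
      rw [← mul_mk]
      group
    have hcore := allPos_core hred' (by rw [← hmk]; exact hPC)
    have hz : (reduceCyclically.conjugator B').length < b :=
      conjugator_short hV.isReduced hV0 (m := n * a) (by rw [← hb]; omega)
    have hfac := core_factor B'
    have hlB' : B'.length = k * b - n * a := by rw [hB', List.length_drop, hlB]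
    have hlen : 2 * (reduceCyclically.conjugator B').length + (reduceCyclically B').length
        = k * b - n * a := by
      rw [core_length, hlB']
    apply hVnotpos
    apply all_of_factor (s := n * a + (reduceCyclically.conjugator B').length) hV0 _ _ hcore
    · intro i hi
      refine (hfac i hi).trans ((drop_per V k (n * a) _ ?_).trans (by rw [Nat.add_assoc]))
      change _ < B'.length
      omega
    · rw [← hb]; omega

end Pool.Agent.R794.PP
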