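import Pool.Agent.R794.PP.Main

namespace Pool.Agent.R794.PP

open FreeGroup List

variable {X : Type*} [DecidableEq X]

/-- exponent sum homomorphism -/
def chi : FreeGroup X →* Multiplicative ℤ := FreeGroup.lift fun _ => Multiplicative.ofAdd 1

omit [DecidableEq X] in
lemma chi_mk (L : List (X × Bool)) : chi (mk L : FreeGroup X) = Multiplicative.ofAdd (esum L) := by
  induction L with
  | nil => simp [chi, esum]
  | cons a L ih =>
    have h : (mk (a :: L) : FreeGroup X) = mk [a] * mk L := by rw [mul_mk]; rfl
    rw [h, MonoidHom.map_mul, ih]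
    have h2 : chi (mk [a] : FreeGroup X) = Multiplicative.ofAdd (if a.2 then (1 : ℤ) else -1) := by
      rw [chi, FreeGroup.lift_mk]
      cases h : a.2 <;> simp [h]
    rw [h2, ← ofAdd_add]
    simp [esum]

lemma head?_pow (x : FreeGroup X) {n : ℕ} (hn : n ≠ 0) :
    (x ^ n).toWord.head? = x.toWord.head? := by
  obtain ⟨m, rfl⟩ : ∃ m, n = m + 1 := ⟨n - 1, by omega⟩
  rw [toWord_pow, reduceCyclically.reduce_flatten_replicate_succ isReduced_toWord]
  have h := reduceCyclically.conj_conjugator_reduceCyclically x.toWord
  generalize reduceCyclically.conjugator x.toWord = c at h ⊢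
  generalize reduceCyclically x.toWord = r at h ⊢
  rw [← h]
  cases c with
  | nil => simp
  | cons y c => simp

lemma getLast?_pow (x : FreeGroup X) {n : ℕ} (hn : n ≠ 0) :
    (x ^ n).toWord.getLast? = x.toWord.getLast? := by
  obtain ⟨m, rfl⟩ : ∃ m, n = m + 1 := ⟨n - 1, by omega⟩
  rw [toWord_pow, reduceCyclically.reduce_flatten_replicate_succ isReduced_toWord]
  have h := reduceCyclically.conj_conjugator_reduceCyclically x.toWord
  generalize reduceCyclically.conjugator x.toWord = c at h ⊢
  generalize reduceCyclically x.toWord = r at h ⊢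
  rw [← h]
  cases c with
  | nil => simp
  | cons y c =>
    have hne : invRev (y :: c) ≠ [] := by
      intro h0
      have := congrArg List.length h0
      simp at this
    rw [List.getLast?_append_of_ne_nil _ hne, List.getLast?_append_of_ne_nil _ hne]

lemma disjoint_case {p q : FreeGroup X} {y : X × Bool} (h1 : p.toWord.head? = some y)
    (h2 : p.toWord.getLast? = some (linv y)) (h3 : q.toWord.head? ≠ some y)
    (h4 : q.toWord.getLast? ≠ some (linv y)) (hq : q ≠ 1) : ¬ PC (p * q) := by
  intro hPC
  set P := p.toWord with hP
  set Q := q.toWord with hQ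
  have hQne : Q ≠ [] := by rw [hQ, Ne, toWord_eq_nil_iff]; exact hq
  have hPne : P ≠ [] := by intro h; rw [h] at h1; simp at h1
  have hcyc : IsCyclicallyReduced (P ++ Q) := by
    refine ⟨?_, ?_⟩
    · rw [FreeGroup.IsReduced, List.isChain_append]
      refine ⟨isReduced_toWord, isReduced_toWord, ?_⟩
      intro a ha b hb hab
      rw [h2, Option.mem_def, Option.some_inj] at ha
      subst ha
      rw [Option.mem_def] at hb
      by_contra hne
      apply h3
      rw [hb]; congr 1
      apply Prod.ext
      · exact hab.symm
      · simp only [linv] at hne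
        cases h1 : y.2 <;> cases h2 : b.2 <;> simp_all
    · intro a ha b hb hab
      rw [List.getLast?_append_of_ne_nil _ hQne, Option.mem_def] at ha
      rw [List.head?_append_of_ne_nil _ hPne, h1, Option.mem_def, Option.some_inj] at hb
      subst hb
      by_contra hne
      apply h4
      rw [ha]; congr 1
      apply Prod.ext
      · exact hab
      · simp only [linv]
        cases h1 : y.2 <;> cases h2 : a.2 <;> simp_all
  have hmk : (mk (P ++ Q) : FreeGroup X) = p * q := by
    rw [← mul_mk, hP, hQ, mk_toWord, mk_toWord]
  have hpos := allPos_of_cyc hcyc (by rw [hmk]; exact hPC)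
  have h5 := hpos y (List.mem_append_left _ (List.mem_of_head? h1))
  have h6 := hpos (linv y) (List.mem_append_left _ (List.mem_of_getLast? h2))
  simp [linv, h5] at h6

omit [DecidableEq X] in
lemma cyc_rotate {L : List (X × Bool)} {y : X × Bool} (h : IsCyclicallyReduced (L ++ [y])) :
    IsCyclicallyReduced (y :: L) := by
  obtain ⟨h1, h2⟩ := h
  rw [FreeGroup.IsReduced, List.isChain_append] at h1
  obtain ⟨h3, -, h4⟩ := h1
  cases L with
  | nil => simp
  | cons z L =>
    refine ⟨?_, ?_⟩
    · rw [FreeGroup.IsReduced, List.isChain_cons_cons]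
      exact ⟨fun hyz => h2 y (by rw [List.getLast?_append_of_ne_nil _ (by simp)]; rfl) z (by simp) hyz, h3⟩
    · intro a ha b hb hab
      have hb' : b = y := by simpa using hb.symm
      subst hb'
      have ha' : a ∈ (z :: L).getLast? := by
        rw [List.getLast?_cons_cons] at ha; exact ha
      exact h4 a ha' b (by simp) hab

omit [DecidableEq X] in
lemma per_rotate (T : List (X × Bool)) (y : X × Bool) (i : ℕ) :
    per (T ++ [y]) i = per (y :: T) (i + 1) := by
  have h : T ++ [y] = (y :: T).rotate 1 := by simp
  have hlen : (T ++ [y]).length = (y :: T).length := by simp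
  unfold per
  rw [hlen, h, List.getElem?_rotate (Nat.mod_lt _ (by simp)), Nat.mod_add_mod]

omit [DecidableEq X] in
lemma esum_rotate (T : List (X × Bool)) (y : X × Bool) : esum (y :: T) = esum (T ++ [y]) := by
  simp [esum, add_comm]

lemma rotate_case {n k : ℕ} (hn : 5 ≤ n) (hk : 5 ≤ k) : ∀ (s : ℕ) (U V : List (X × Bool)),
    IsCyclicallyReduced U → IsCyclicallyReduced V → U ≠ [] → V ≠ [] →
    (∀ i < s, per U.reverse i = per V.reverse i) → per U.reverse s ≠ per V.reverse s →
    ¬ Commute (mk U : FreeGroup X) (mk V) → esum V = 0 →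
    PC (((mk U) ^ n)⁻¹ * (mk V) ^ k : FreeGroup X) → False := by
  intro s
  induction s with
  | zero =>
    intro U V hU hV hU0 hV0 _ hne hc hs hPC
    refine main_case hU hV hU0 hV0 ?_ ?_ hs hn hk hPC
    · intro h
      apply hne
      have : ∀ L : List (X × Bool), per L.reverse 0 = L.getLast? := by
        intro L
        rw [per, Nat.zero_mod]
        rw [← List.head?_eq_getElem?, List.head?_reverse]
      rw [this, this, h]
    · intro h
      apply hc
      rw [Commute, SemiconjBy, mul_mk, mul_mk, h]
  | succ s ih =>
    intro U V hU hV hU0 hV0 hlt hne hc hs hPC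
    have h0 := hlt 0 (by omega)
    have hper0 : ∀ L : List (X × Bool), per L.reverse 0 = L.getLast? := by
      intro L
      rw [per, Nat.zero_mod]
      rw [← List.head?_eq_getElem?, List.head?_reverse]
    rw [hper0, hper0] at h0
    obtain ⟨U1, y, rfl⟩ : ∃ U1 y, U = U1 ++ [y] := ⟨U.dropLast, U.getLast hU0, (List.dropLast_append_getLast hU0).symm⟩
    obtain ⟨V1, y', rfl⟩ : ∃ V1 y', V = V1 ++ [y'] := ⟨V.dropLast, V.getLast hV0, (List.dropLast_append_getLast hV0).symm⟩
    have hyy : y = y' := by simpa using h0
    subst hyy
    have hper : ∀ (T : List (X × Bool)) (i : ℕ), per (y :: T).reverse i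
        = per (T ++ [y]).reverse (i + 1) := by
      intro T i
      rw [List.reverse_cons, List.reverse_append, List.reverse_singleton, List.singleton_append,
        per_rotate]
    have hconj : ∀ T : List (X × Bool), (mk (y :: T) : FreeGroup X)
        = mk [y] * mk (T ++ [y]) * (mk [y])⁻¹ := by
      intro T
      rw [show (y :: T) = [y] ++ T from rfl, ← mul_mk, ← mul_mk]
      group
    refine ih (y :: U1) (y :: V1) (cyc_rotate hU) (cyc_rotate hV) (by simp) (by simp) ?_ ?_ ?_ ?_ ?_
    · intro i hi
      rw [hper, hper]; exact hlt (i + 1) (by omega)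
    · rw [hper, hper]; exact hne
    · intro h
      apply hc
      rw [hconj U1, hconj V1, Commute.conj_iff] at h
      exact h
    · rw [esum_rotate]; exact hs
    · rw [hconj U1, hconj V1, conj_pow, conj_pow]
      have h3 := hPC.conj (mk [y])
      convert h3 using 1
      group

omit [DecidableEq X] in
lemma notCyc_form {U : List (X × Bool)} (hU : FreeGroup.IsReduced U)
    (h : ¬ IsCyclicallyReduced U) : ∃ y L, U = y :: (L ++ [linv y]) := by
  rw [isCyclicallyReduced_iff] at h
  push Not at h
  obtain ⟨a, ha, b, hb, hab, hne⟩ := h hU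
  cases U with
  | nil => simp at ha
  | cons z T =>
    have hz : b = z := by simpa using hb.symm
    subst hz
    have hTne : T ≠ [] := by
      rintro rfl
      have : a = b := by simpa using ha.symm
      exact hne (by rw [this])
    obtain ⟨L, c, rfl⟩ : ∃ L c, T = L ++ [c] := ⟨T.dropLast, T.getLast hTne, (List.dropLast_append_getLast hTne).symm⟩
    refine ⟨b, L, ?_⟩
    have hc : a = c := by
      have : (b :: (L ++ [c])).getLast? = some c := by
        rw [show b :: (L ++ [c]) = (b :: L) ++ [c] from rfl]
        exact List.getLast?_concat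
      rw [this] at ha
      simpa using ha.symm
    subst hc
    have : a = linv b := by
      apply Prod.ext
      · exact hab
      · simp only [linv]
        cases h1 : a.2 <;> cases h2 : b.2 <;> simp_all
    rw [this]

lemma PC.swap {p q : FreeGroup X} (h : PC (q * p)) : PC (p * q) := by
  have := h.conj p
  convert this using 1
  group

omit [DecidableEq X] in
lemma mk_linv (y : X × Bool) : (mk [linv y] : FreeGroup X) = (mk [y])⁻¹ := by
  rw [inv_mk]; rfl

theorem notPC {n k : ℕ} (hn : 5 ≤ n) (hk : 5 ≤ k) : ∀ (N : ℕ) (u v : FreeGroup X),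
    norm u + norm v ≤ N → ¬ Commute u v → chi v = 1 → ¬ PC ((u ^ n)⁻¹ * v ^ k) := by
  intro N
  induction N with
  | zero =>
    intro u v hN hc
    have : norm u = 0 := by omega
    rw [FreeGroup.norm_eq_zero] at this
    subst this
    exact absurd (Commute.one_left v) hc
  | succ N ih =>
    intro u v hN hc hchi hPC
    have hu1 : u ≠ 1 := by rintro rfl; exact hc (Commute.one_left v)
    have hv1 : v ≠ 1 := by rintro rfl; exact hc (Commute.one_right u)
    have hpow : ∀ (x : FreeGroup X) (m : ℕ), x ≠ 1 → 5 ≤ m → x ^ m ≠ 1 := by
      intro x m hx hm h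
      apply hx
      exact pow_left_injective (n := m) (by omega) (by simpa using h)
    -- the step by conjugation
    have step : ∀ y : X × Bool, norm ((mk [y])⁻¹ * u * mk [y]) + norm ((mk [y])⁻¹ * v * mk [y])
        ≤ N → False := by
      intro y hy
      refine ih _ _ hy ?_ ?_ ?_
      · intro h
        apply hc
        have h2 := (Commute.conj_iff (a := u) (b := v) ((mk [y] : FreeGroup X)⁻¹)).1
        rw [inv_inv] at h2
        exact h2 h
      · rw [MonoidHom.map_mul, MonoidHom.map_mul, hchi, mul_one, ← MonoidHom.map_mul,
          inv_mul_cancel, MonoidHom.map_one]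
      · have h1 := hPC.conj ((mk [y])⁻¹)
        have h2 : ∀ (x : FreeGroup X) (m : ℕ), ((mk [y])⁻¹ * x * mk [y]) ^ m
            = (mk [y])⁻¹ * x ^ m * mk [y] := by
          intro x m
          have := conj_pow (a := (mk [y])⁻¹) (b := x) (i := m)
          simpa using this
        rw [h2, h2]
        convert h1 using 1
        group
    -- norm bounds
    have bd1 : ∀ (x : FreeGroup X) (y : X × Bool), x.toWord.head? = some y →
        norm ((mk [y])⁻¹ * x * mk [y]) ≤ norm x := by
      intro x y hx
      obtain ⟨T, hT⟩ : ∃ T, x.toWord = y :: T := by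
        cases h : x.toWord with
        | nil => rw [h] at hx; simp at hx
        | cons z T => rw [h] at hx; simp at hx; exact ⟨T, by rw [hx]⟩
      have h1 : x = mk [y] * mk T := by
        rw [mul_mk, List.singleton_append, ← hT, mk_toWord]
      have h2 : (mk [y])⁻¹ * x * mk [y] = mk (T ++ [y]) := by
        rw [h1, ← mul_mk]; group
      rw [h2]
      refine le_trans norm_mk_le ?_
      rw [FreeGroup.norm, hT]; simp
    have bd2 : ∀ (x : FreeGroup X) (y : X × Bool), x.toWord.getLast? = some (linv y) →
        norm ((mk [y])⁻¹ * x * mk [y]) ≤ norm x := by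
      intro x y hx
      obtain ⟨T, hT⟩ : ∃ T, x.toWord = T ++ [linv y] := by
        rcases List.eq_nil_or_concat' x.toWord with h | ⟨T, z, h⟩
        · rw [h] at hx; simp at hx
        · rw [h, List.getLast?_concat, Option.some_inj] at hx
          exact ⟨T, by rw [h, hx]⟩
      have h1 : x = mk T * (mk [y])⁻¹ := by
        rw [← mk_linv, mul_mk, ← hT, mk_toWord]
      have h2 : (mk [y])⁻¹ * x * mk [y] = mk ([linv y] ++ T) := by
        rw [h1, ← mul_mk, mk_linv]; group
      rw [h2]
      refine le_trans norm_mk_le ?_
      rw [FreeGroup.norm, hT]; simp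
    have bd3 : ∀ (x : FreeGroup X) (y : X × Bool) (L : List (X × Bool)),
        x.toWord = y :: (L ++ [linv y]) → norm ((mk [y])⁻¹ * x * mk [y]) + 2 ≤ norm x := by
      intro x y L hx
      have h1 : x = mk [y] * mk L * (mk [y])⁻¹ := by
        rw [← mk_linv, mul_mk, mul_mk, ← mk_toWord (x := x), hx]; rfl
      have h2 : (mk [y])⁻¹ * x * mk [y] = mk L := by
        rw [h1]; group
      rw [h2]
      have h3 : norm (mk L : FreeGroup X) ≤ L.length := norm_mk_le
      have h4 : norm x = L.length + 2 := by rw [FreeGroup.norm, hx]; simp
      omega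
    have hinvpow : ∀ m : ℕ, (u ^ m)⁻¹ = (u⁻¹) ^ m := fun m => (inv_pow u m).symm
    by_cases hUc : IsCyclicallyReduced u.toWord
    · by_cases hVc : IsCyclicallyReduced v.toWord
      · -- both cyclically reduced
        have hU0 : u.toWord ≠ [] := by rw [Ne, toWord_eq_nil_iff]; exact hu1
        have hV0 : v.toWord ≠ [] := by rw [Ne, toWord_eq_nil_iff]; exact hv1
        have hex : ∃ i, per u.toWord.reverse i ≠ per v.toWord.reverse i := by
          by_contra hcon
          push Not at hcon
          have h1 := fineWilf (U := u.toWord.reverse) (V := v.toWord.reverse)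
            (fun i _ => hcon i)
          have h2 := congrArg List.reverse h1
          simp only [List.reverse_append, List.reverse_reverse] at h2
          apply hc
          have h3 := congrArg (mk : List (X × Bool) → FreeGroup X) h2
          rw [← mul_mk, ← mul_mk, mk_toWord, mk_toWord] at h3
          exact h3.symm
        classical
        refine rotate_case hn hk (Nat.find hex) u.toWord v.toWord hUc hVc hU0 hV0
          (fun i hi => not_not.1 (Nat.find_min hex hi)) (Nat.find_spec hex) ?_ ?_ ?_
        · rw [mk_toWord, mk_toWord]; exact hc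
        · rw [← mk_toWord (x := v), chi_mk] at hchi
          exact Multiplicative.ofAdd.injective (by rw [hchi]; rfl)
        · rw [mk_toWord, mk_toWord]; exact hPC
      · obtain ⟨y, L, hL⟩ := notCyc_form isReduced_toWord hVc
        have h1 := bd3 v y L hL
        have hh : u.toWord.head? ≠ some y := fun h => step y (by
          have := bd1 u y h; omega)
        have hl : u.toWord.getLast? ≠ some (linv y) := fun h => step y (by
          have := bd2 u y h; omega)
        refine disjoint_case (p := v ^ k) (q := (u ^ n)⁻¹) (y := y) ?_ ?_ ?_ ?_ ?_ hPC.swap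
        · rw [head?_pow v (by omega), hL]; rfl
        · rw [getLast?_pow v (by omega), hL, show y :: (L ++ [linv y]) = (y :: L) ++ [linv y] from rfl]
          exact List.getLast?_concat
        · rw [hinvpow, head?_pow _ (by omega), toWord_inv, head?_invRev]
          intro h
          rw [Option.map_eq_some_iff] at h
          obtain ⟨z, hz, hzy⟩ := h
          apply hl
          rw [hz, ← hzy, linv_linv]
        · rw [hinvpow, getLast?_pow _ (by omega), toWord_inv, getLast?_invRev]
          intro h
          rw [Option.map_eq_some_iff] at h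
          obtain ⟨z, hz, hzy⟩ := h
          apply hh
          rw [hz, ← linv_linv z, hzy, linv_linv]
        · rw [Ne, inv_eq_one]; exact hpow u n hu1 hn
    · obtain ⟨y, L, hL⟩ := notCyc_form isReduced_toWord hUc
      have h1 := bd3 u y L hL
      have hh : v.toWord.head? ≠ some y := fun h => step y (by
        have := bd1 v y h; omega)
      have hl : v.toWord.getLast? ≠ some (linv y) := fun h => step y (by
        have := bd2 v y h; omega)
      refine disjoint_case (p := (u ^ n)⁻¹) (q := v ^ k) (y := y) ?_ ?_ ?_ ?_ ?_ hPC
      · rw [hinvpow, head?_pow _ (by omega), toWord_inv, head?_invRev, hL,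
          show y :: (L ++ [linv y]) = (y :: L) ++ [linv y] from rfl, List.getLast?_concat]
        simp
      · rw [hinvpow, getLast?_pow _ (by omega), toWord_inv, getLast?_invRev, hL]
        simp
      · rw [head?_pow v (by omega)]; exact hh
      · rw [getLast?_pow v (by omega)]; exact hl
      · exact hpow v k hv1 hk

end Pool.Agent.R794.PP
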