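import Mathlib

/-!
# Products of powers in a free group and positive words

For elements `u, v` of a free group which do not commute, where the exponent sum of `v` is zero,
no element `u⁻ⁿ vᵏ` with `n, k ≥ 5` is conjugate to a positive word.
-/

namespace Pool.Agent.R794.PP

open FreeGroup List

variable {X : Type*}

/-- formal inverse of a letter -/
def linv (l : X × Bool) : X × Bool := (l.1, !l.2)

@[simp] lemma linv_linv (l : X × Bool) : linv (linv l) = l := by simp [linv]

lemma ne_linv (l : X × Bool) : linv l ≠ l := by
  intro h
  have := congrArg Prod.snd h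
  simp [linv] at this

/-- all letters are generators -/
def AllPos (L : List (X × Bool)) : Prop := ∀ l ∈ L, l.2 = true

/-- all letters are inverses of generators -/
def AllNeg (L : List (X × Bool)) : Prop := ∀ l ∈ L, l.2 = false

lemma head?_invRev (L : List (X × Bool)) : (invRev L).head? = L.getLast?.map linv := by
  induction L using List.reverseRecOn with
  | nil => simp [invRev]
  | append_singleton L a ih => simp [invRev, linv]

lemma getLast?_invRev (L : List (X × Bool)) : (invRev L).getLast? = L.head?.map linv := by
  cases L with
  | nil => simp [invRev]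
  | cons a L => simp [invRev, linv]

lemma red_take {L : List (X × Bool)} (h : FreeGroup.IsReduced L) (m : ℕ) : FreeGroup.IsReduced (L.take m) := by
  rw [FreeGroup.IsReduced, ← List.take_append_drop m L, List.isChain_append] at h
  exact h.1

lemma red_drop {L : List (X × Bool)} (h : FreeGroup.IsReduced L) (m : ℕ) : FreeGroup.IsReduced (L.drop m) := by
  rw [FreeGroup.IsReduced, ← List.take_append_drop m L, List.isChain_append] at h
  exact h.2.1

lemma isReduced_invRev {L : List (X × Bool)} (h : IsReduced L) : IsReduced (invRev L) := by
  classical
  rw [isReduced_iff_reduce_eq, reduce_invRev, h.reduce_eq]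

lemma allPos_invRev {L : List (X × Bool)} : AllPos (invRev L) ↔ AllNeg L := by
  constructor
  · intro h l hl
    have := h (linv l) (by simp only [invRev, List.mem_reverse, List.mem_map]; exact ⟨l, hl, rfl⟩)
    simpa [linv] using this
  · intro h l hl
    simp only [invRev, List.mem_reverse, List.mem_map] at hl
    obtain ⟨a, ha, rfl⟩ := hl
    simp [h a ha]

section Conj

variable [DecidableEq X]

/-- the element is conjugate to a positive word (or trivial) -/
def PC (g : FreeGroup X) : Prop := ∃ t : FreeGroup X, AllPos (t * g * t⁻¹).toWord

lemma PC.conj {g : FreeGroup X} (h : PC g) (s : FreeGroup X) : PC (s * g * s⁻¹) := by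
  obtain ⟨t, ht⟩ := h
  refine ⟨t * s⁻¹, ?_⟩
  have : t * s⁻¹ * (s * g * s⁻¹) * (t * s⁻¹)⁻¹ = t * g * t⁻¹ := by group
  rw [this]; exact ht

/-- number of inverse letters -/
def negc (L : List (X × Bool)) : ℕ := L.countP (fun l => !l.2)

lemma negc_append (L M : List (X × Bool)) : negc (L ++ M) = negc L + negc M := by
  simp [negc]

lemma negc_mul_le (x y : FreeGroup X) : negc (x * y).toWord ≤ negc x.toWord + negc y.toWord := by
  rw [← negc_append]
  exact (toWord_mul_sublist x y).countP_le

lemma negc_eq_zero {L : List (X × Bool)} : negc L = 0 ↔ AllPos L := by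
  simp [negc, List.countP_eq_zero, AllPos]

lemma negc_flatten_replicate (L : List (X × Bool)) (n : ℕ) :
    negc (List.replicate n L).flatten = n * negc L := by
  induction n with
  | zero => simp [negc]
  | succ n ih => rw [List.replicate_succ, List.flatten_cons, negc_append, ih]; ring

lemma negc_pow_of_allPos {x : FreeGroup X} (h : AllPos x.toWord) (n : ℕ) :
    negc (x ^ n).toWord = 0 := by
  induction n with
  | zero => simp [negc]
  | succ n ih =>
    rw [pow_succ]
    have := negc_mul_le (x ^ n) x
    rw [ih, negc_eq_zero.2 h] at this
    omega

/-- A cyclically reduced word representing a conjugate of a positive word is positive. -/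
lemma allPos_of_cyc {R : List (X × Bool)} (hR : IsCyclicallyReduced R) (h : PC (mk R)) :
    AllPos R := by
  obtain ⟨t, ht⟩ := h
  set P := t * mk R * t⁻¹ with hP
  have hRP : ∀ n : ℕ, (mk R) ^ n = t⁻¹ * P ^ n * t := by
    intro n
    have : P ^ n = t * (mk R) ^ n * t⁻¹ := by rw [hP, conj_pow]
    rw [this]; group
  have hword : ∀ n : ℕ, ((mk R) ^ n).toWord = (List.replicate n R).flatten := by
    intro n
    rw [toWord_pow, toWord_mk, hR.isReduced.reduce_eq,
      (hR.flatten_replicate n).isReduced.reduce_eq]
  have hle : ∀ n : ℕ, n * negc R ≤ negc (t⁻¹).toWord + negc t.toWord := by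
    intro n
    rw [← negc_flatten_replicate, ← hword, hRP]
    have h1 := negc_mul_le (t⁻¹ * P ^ n) t
    have h2 := negc_mul_le (t⁻¹) (P ^ n)
    rw [negc_pow_of_allPos ht] at h2
    omega
  rw [← negc_eq_zero]
  by_contra hne
  have h1 := hle (negc (t⁻¹).toWord + negc t.toWord + 1)
  have h2 : 1 ≤ negc R := Nat.one_le_iff_ne_zero.2 hne
  nlinarith

/-- The cyclically reduced core of a reduced word representing a conjugate of a positive word is
positive. -/
lemma allPos_core {R : List (X × Bool)} (hR : IsReduced R) (h : PC (mk R)) :
    AllPos (reduceCyclically R) := by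
  refine allPos_of_cyc (reduceCyclically.isCyclicallyReduced hR) ?_
  have h1 := reduceCyclically.conj_conjugator_reduceCyclically R
  have h2 : mk R = mk (reduceCyclically.conjugator R) * mk (reduceCyclically R) *
      (mk (reduceCyclically.conjugator R))⁻¹ := by
    rw [inv_mk, mul_mk, mul_mk, h1]
  have h3 := h.conj ((mk (reduceCyclically.conjugator R))⁻¹)
  rw [h2] at h3
  convert h3 using 1
  group

end Conj

/-! ### Periodic words -/

/-- the letter of the periodic word `L L L ...` at position `i` -/
def per (L : List (X × Bool)) (i : ℕ) : Option (X × Bool) := L[i % L.length]?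

lemma getElem?_flatten_replicate (L : List (X × Bool)) (n i : ℕ) (h : i < n * L.length) :
    ((List.replicate n L).flatten)[i]? = per L i := by
  induction n generalizing i with
  | zero => simp at h
  | succ n ih =>
    rw [List.replicate_succ, List.flatten_cons]
    by_cases hi : i < L.length
    · rw [List.getElem?_append_left hi, per, Nat.mod_eq_of_lt hi]
    · push Not at hi
      rw [List.getElem?_append_right hi, ih (i - L.length) (by rw [Nat.succ_mul] at h; omega)]
      unfold per
      rw [Nat.mod_eq_sub_mod hi]

lemma length_flatten_replicate' (L : List (X × Bool)) (n : ℕ) :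
    ((List.replicate n L).flatten).length = n * L.length := by
  simp

lemma fineWilf {U V : List (X × Bool)}
    (h : ∀ i < U.length + V.length, per U i = per V i) : U ++ V = V ++ U := by
  apply List.ext_getElem?
  intro i
  by_cases hi : i < U.length + V.length
  · have h1 : (U ++ V)[i]? = per U i := by
      by_cases hu : i < U.length
      · rw [List.getElem?_append_left hu, per, Nat.mod_eq_of_lt hu]
      · push Not at hu
        rw [List.getElem?_append_right hu]
        have h2 : V[i - U.length]? = per V (i - U.length) := by
          rw [per, Nat.mod_eq_of_lt (by omega)]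
        rw [h2, ← h (i - U.length) (by omega)]
        unfold per
        rw [Nat.mod_eq_sub_mod hu]
    have h3 : (V ++ U)[i]? = per V i := by
      by_cases hv : i < V.length
      · rw [List.getElem?_append_left hv, per, Nat.mod_eq_of_lt hv]
      · push Not at hv
        rw [List.getElem?_append_right hv]
        have h2 : U[i - V.length]? = per U (i - V.length) := by
          rw [per, Nat.mod_eq_of_lt (by omega)]
        rw [h2, h (i - V.length) (by omega)]
        unfold per
        rw [Nat.mod_eq_sub_mod hv]
    rw [h1, h3, h i hi]
  · push Not at hi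
    rw [List.getElem?_eq_none (by simpa using hi), List.getElem?_eq_none (by simp; omega)]

/-- a word which is not empty is not the inverse of one of its rotations -/
lemma not_invRev_rotate {U : List (X × Bool)} (hU : IsReduced U) (hne : U ≠ []) (j : ℕ) :
    U ≠ invRev (U.rotate j) := by
  classical
  intro h
  have key : ∀ p : List (X × Bool), IsReduced p → p = invRev p → p = [] := by
    intro p hp hpp
    have h1 : (mk p : FreeGroup X) = (mk p)⁻¹ := by rw [inv_mk, ← hpp]
    have h2 : (mk p : FreeGroup X) ^ 2 = 1 ^ 2 := by
      rw [sq, one_pow]
      nth_rewrite 1 [h1]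
      group
    have h3 : (mk p : FreeGroup X) = 1 := pow_left_injective (n := 2) (by norm_num) h2
    have h4 := congrArg toWord h3
    rw [toWord_mk, hp.reduce_eq, toWord_one] at h4
    exact h4
  rw [List.rotate_eq_drop_append_take_mod, invRev_append] at h
  set m := j % U.length with hm
  have hml : m ≤ U.length := (Nat.mod_lt _ (List.length_pos_iff.2 hne)).le
  have h5 : U.take m ++ U.drop m = invRev (U.take m) ++ invRev (U.drop m) := by
    rw [List.take_append_drop]; exact h
  obtain ⟨h6, h7⟩ := List.append_inj h5 (by simp)
  have h8 := key _ (red_take hU m) h6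
  have h9 := key _ (red_drop hU m) h7
  apply hne
  rw [← List.take_append_drop m U, h8, h9]; rfl

/-- a factor of length at least the period contains all letters -/
lemma all_of_factor {U M : List (X × Bool)} {s : ℕ} {b : Bool} (hne : U ≠ [])
    (hM : ∀ i < M.length, M[i]? = per U (s + i)) (hlen : U.length ≤ M.length)
    (hb : ∀ l ∈ M, l.2 = b) : ∀ l ∈ U, l.2 = b := by
  intro l hl
  obtain ⟨j, hj, rfl⟩ := List.getElem_of_mem hl
  have hpos : 0 < U.length := List.length_pos_iff.2 hne
  have hs : s % U.length < U.length := Nat.mod_lt _ hpos
  set i := (j + (U.length - s % U.length)) % U.length with hi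
  have hi' : i < U.length := Nat.mod_lt _ hpos
  have h1 : (s + i) % U.length = j := by
    rw [Nat.add_mod, hi, Nat.mod_mod, ← Nat.add_mod]
    have : s % U.length + (j + (U.length - s % U.length)) = j + U.length := by omega
    rw [← Nat.mod_add_mod, this, Nat.add_mod_right, Nat.mod_eq_of_lt hj]
  have h2 := hM i (by omega)
  rw [per, h1, List.getElem?_eq_getElem hj] at h2
  exact hb _ (List.mem_of_getElem? h2)

/-- exponent sum of a word -/
def esum (L : List (X × Bool)) : ℤ := (L.map (fun l => if l.2 then (1 : ℤ) else -1)).sum

lemma esum_allPos {L : List (X × Bool)} (h : AllPos L) : esum L = L.length := by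
  induction L with
  | nil => simp [esum]
  | cons a L ih =>
    have h1 : a.2 = true := h a (by simp)
    have h2 := ih (fun l hl => h l (by simp [hl]))
    simp only [esum, List.map_cons, List.sum_cons, h1, if_true, List.length_cons] at h2 ⊢
    rw [h2]; push_cast; ring

lemma esum_allNeg {L : List (X × Bool)} (h : AllNeg L) : esum L = -L.length := by
  induction L with
  | nil => simp [esum]
  | cons a L ih =>
    have h1 : a.2 = false := h a (by simp)
    have h2 := ih (fun l hl => h l (by simp [hl]))
    simp only [esum, List.map_cons, List.sum_cons, h1, List.length_cons] at h2 ⊢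
    rw [h2]; push_cast; simp <;> ring

end Pool.Agent.R794.PP
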